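import Pool.Agent.X197.Cheese2

set_option autoImplicit false

namespace Pool.Agent.Results.MP_a6d22b_an.NotInRX

open Set Pool.Agent.X197.Cheese

/-- There is a compact plane set `X` with dense interior such that `A^(1)(X)` is not contained in
`R(X)`. -/
theorem result : ∃ X : Set ℂ, X.Nonempty ∧ IsCompact X ∧ X ⊆ closure (interior X) ∧
    ∃ f : ℂ → ℂ, InA1 X f ∧ ¬ InR X f :=
  ⟨X, ⟨1, circ_sub (sph0 (by simp))⟩, X_compact, X_dense, f, f_A1, f_notR⟩

end Pool.Agent.Results.MP_a6d22b_an.NotInRX
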